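import Pool.Agent.Helper93.KS.St

/-!
# Project KS, module RB: bound for a product
-/

set_option autoImplicit false

noncomputable section

namespace Pool.Agent.Helper58.KS

open Finset Filter Topology
open Pool.Agent.Helper93.KS
open Pool.Agent.Helper15.AB (ee Kl StDB StMT)
open Pool.Agent.Helper9.TW (gm Qs fm StMER StC9)
open Pool.Agent.Helper18.TR (StLevel)
open Pool.Agent.Helper93.KP (gk vk tk rn gn TK qk StC8P StVLP StRTS StWEI)

private theorem gm_nn (j : ℕ) (hj : 1 ≤ j) : 0 ≤ gm j := by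
  have hj' : (0 : ℝ) < j := by exact_mod_cast hj
  unfold gm
  apply Real.log_nonneg
  rw [le_div_iff₀ hj']
  linarith

private theorem gm_le' (j : ℕ) (hj : 1 ≤ j) : gm j ≤ 1 / j := by
  have hj' : (0 : ℝ) < j := by exact_mod_cast hj
  unfold gm
  have h := Real.log_le_sub_one_of_pos (show (0 : ℝ) < ((j : ℝ) + 1) / j by positivity)
  have h2 : ((j : ℝ) + 1) / j - 1 = 1 / j := by
    field_simp
    ring
  linarith

private theorem step (κ j : ℕ) (hκ : κ ≤ 2) (hj : 8 ≤ j) :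
    0 ≤ 1 / (1 - (κ : ℝ) * gm j) ∧
    1 / (1 - (κ : ℝ) * gm j) ≤ (((j : ℝ) + 1) / j) ^ κ * Real.exp (8 * (1 / (j : ℝ) - 1 / ((j : ℝ) + 1))) := by
  have hj' : (8 : ℝ) ≤ j := by exact_mod_cast hj
  have hj0 : (0 : ℝ) < j := by linarith
  have hκ' : (κ : ℝ) ≤ 2 := by exact_mod_cast hκ
  have hg0 := gm_nn j (by omega)
  have hg1 := gm_le' j (by omega)
  set x : ℝ := (κ : ℝ) * gm j with hx
  have hx0 : 0 ≤ x := by positivity
  have hx1 : x ≤ 2 / j := by
    have h1 : x ≤ 2 * (1 / (j : ℝ)) := mul_le_mul hκ' hg1 hg0 (by norm_num)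
    calc x ≤ 2 * (1 / (j : ℝ)) := h1
      _ = 2 / j := by ring
  have hx2 : 2 / (j : ℝ) ≤ 1 / 4 := by
    rw [div_le_div_iff₀ hj0 (by norm_num)]
    linarith
  have hx3 : x ≤ 1 / 4 := hx1.trans hx2
  have hpos : 0 < 1 - x := by linarith
  refine ⟨by positivity, ?_⟩
  have h1 : 1 - (1 - x)⁻¹ ≤ Real.log (1 - x) := Real.one_sub_inv_le_log_of_pos hpos
  have h2 : (1 - x)⁻¹ - 1 ≤ x + 4 / 3 * x ^ 2 := by
    rw [sub_le_iff_le_add, inv_le_comm₀ hpos (by positivity)]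
    rw [inv_le_iff_one_le_mul₀ (by positivity)]
    nlinarith [mul_nonneg hx0 (mul_nonneg hx0 (sub_nonneg.2 hx3)), mul_nonneg hx0 hx0]
  have h3 : 4 / 3 * x ^ 2 ≤ 8 * (1 / (j : ℝ) - 1 / ((j : ℝ) + 1)) := by
    have h4 : x ^ 2 ≤ (2 / (j : ℝ)) ^ 2 := pow_le_pow_left₀ hx0 hx1 2
    have h5 : 4 / 3 * (2 / (j : ℝ)) ^ 2 ≤ 8 * (1 / (j : ℝ) - 1 / ((j : ℝ) + 1)) := by
      have h6 : 8 * (1 / (j : ℝ) - 1 / ((j : ℝ) + 1)) - 4 / 3 * (2 / (j : ℝ)) ^ 2 =
          (8 * j - 16) / (3 * (j : ℝ) ^ 2 * (j + 1)) := by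
        field_simp
        ring
      have h7 : 0 ≤ (8 * (j : ℝ) - 16) / (3 * (j : ℝ) ^ 2 * (j + 1)) :=
        div_nonneg (by linarith) (by positivity)
      linarith
    linarith
  have h8 : 1 / (1 - x) = Real.exp (-Real.log (1 - x)) := by
    rw [Real.exp_neg, Real.exp_log hpos, one_div]
  have h9 : Real.exp x = (((j : ℝ) + 1) / j) ^ κ := by
    rw [hx, Real.exp_nat_mul]
    unfold gm
    rw [Real.exp_log (by positivity)]
  rw [h8, ← h9, ← Real.exp_add]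
  apply Real.exp_le_exp.2
  linarith

private theorem prod_le (κ j₁ j : ℕ) (hκ : κ ≤ 2) (h1 : 8 ≤ j₁) (h2 : j₁ ≤ j) :
    ∏ j' ∈ Ico j₁ j, 1 / (1 - (κ : ℝ) * gm j') ≤
      ((j : ℝ) / j₁) ^ κ * Real.exp (8 * (1 / (j₁ : ℝ) - 1 / (j : ℝ))) := by
  have hj1 : (8 : ℝ) ≤ j₁ := by exact_mod_cast h1
  have hj10 : (j₁ : ℝ) ≠ 0 := by linarith
  induction j, h2 using Nat.le_induction with
  | base =>
    simp [div_self hj10]
  | succ j hj ih =>
    have hj' : (8 : ℝ) ≤ j := by exact_mod_cast (h1.trans hj)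
    have hj0 : (j : ℝ) ≠ 0 := by linarith
    rw [Finset.prod_Ico_succ_top hj]
    obtain ⟨s0, s1⟩ := step κ j hκ (h1.trans hj)
    calc (∏ j' ∈ Ico j₁ j, 1 / (1 - (κ : ℝ) * gm j')) * (1 / (1 - (κ : ℝ) * gm j))
        ≤ (((j : ℝ) / j₁) ^ κ * Real.exp (8 * (1 / (j₁ : ℝ) - 1 / (j : ℝ)))) *
          ((((j : ℝ) + 1) / j) ^ κ * Real.exp (8 * (1 / (j : ℝ) - 1 / ((j : ℝ) + 1)))) :=
          mul_le_mul ih s1 s0 (by positivity)
      _ = (((j + 1 : ℕ) : ℝ) / j₁) ^ κ * Real.exp (8 * (1 / (j₁ : ℝ) - 1 / ((j + 1 : ℕ) : ℝ))) := by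
          push_cast
          have e1 : ((j : ℝ) + 1) / j₁ = ((j : ℝ) / j₁) * (((j : ℝ) + 1) / j) := by
            field_simp
          have e2 : 8 * (1 / (j₁ : ℝ) - 1 / ((j : ℝ) + 1)) =
              8 * (1 / (j₁ : ℝ) - 1 / (j : ℝ)) + 8 * (1 / (j : ℝ) - 1 / ((j : ℝ) + 1)) := by ring
          rw [e1, e2, mul_pow, Real.exp_add]
          ring

private theorem exp_bd (x : ℝ) (h0 : 0 ≤ x) (h1 : x ≤ 1 / 8) : Real.exp (10 * x) ≤ 1 + 40 * x := by
  have h2 : Real.exp (10 * x) ≤ 1 + 10 * x * Real.exp (10 * x) := by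
    have h3 : 1 - 10 * x ≤ Real.exp (-(10 * x)) := by
      have := Real.add_one_le_exp (-(10 * x))
      linarith
    have h4 : Real.exp (10 * x) * Real.exp (-(10 * x)) = 1 := by
      rw [← Real.exp_add]
      simp
    nlinarith [Real.exp_pos (10 * x)]
  have h5 : Real.exp (10 * x) ≤ 4 := by
    have h6 : Real.exp (10 * x) ≤ Real.exp (5 / 4) := Real.exp_le_exp.2 (by linarith)
    have h7 : Real.exp (5 / 4) ≤ 4 := by
      have h8 : Real.exp (5 / 4) = Real.exp (1 / 4) ^ 5 := by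
        rw [← Real.exp_nat_mul]
        norm_num
      have h9 : Real.exp (1 / 4) ^ 4 = Real.exp 1 := by
        rw [← Real.exp_nat_mul]
        norm_num
      have h10 := Real.exp_one_lt_d9
      have h11 : Real.exp (1 / 4) ≤ 1.3 := by
        by_contra hc
        push Not at hc
        have h12 : (1.3 : ℝ) ^ 4 < Real.exp (1 / 4) ^ 4 := pow_lt_pow_left₀ hc (by norm_num) (by norm_num)
        rw [h9] at h12
        norm_num at h12
        linarith
      rw [h8]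
      calc Real.exp (1 / 4) ^ 5 ≤ (1.3 : ℝ) ^ 5 := pow_le_pow_left₀ (Real.exp_pos _).le h11 5
        _ ≤ 4 := by norm_num
    linarith
  have h6 : 10 * x * Real.exp (10 * x) ≤ 10 * x * 4 := mul_le_mul_of_nonneg_left h5 (by linarith)
  linarith

/-- RB. -/
theorem hRB : StRB := by
  intro κ K i hκ hK hi
  refine ⟨160, 8, by norm_num, le_rfl, ?_⟩
  intro j0 j N hj0 hj h1 h2
  have hlt : K * N / (i + 1) < j := Nat.div_lt_of_lt_mul h2
  refine ⟨max j0 (K * N / (i + 1)), le_max_left _ _, max_le hj hlt.le, ?_, ?_⟩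
  · rcases le_total (K * N / (i + 1)) j0 with h | h
    · exact Or.inl (max_eq_left h)
    · right
      rw [max_eq_right h]
      exact Nat.mul_div_le _ _
  · set j₁ := max j0 (K * N / (i + 1)) with hj₁
    have a1 : j0 ≤ j₁ := le_max_left _ _
    have a2 : j₁ ≤ j := max_le hj hlt.le
    have a3 : K * N / (i + 1) ≤ j₁ := le_max_right _ _
    -- `i j ≤ (i + 1) (j₁ + 1)`
    have a4 : K * N < (i + 1) * (j₁ + 1) := by
      have h3 := Nat.lt_mul_div_succ (K * N) (show 0 < i + 1 by omega)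
      calc K * N < (i + 1) * (K * N / (i + 1) + 1) := h3
        _ ≤ (i + 1) * (j₁ + 1) := Nat.mul_le_mul_left _ (by omega)
    have a5 : i * j ≤ (i + 1) * (j₁ + 1) := by omega
    have a5' : (i : ℝ) * j ≤ ((i : ℝ) + 1) * ((j₁ : ℝ) + 1) := by exact_mod_cast a5
    have b0 : (8 : ℝ) ≤ j0 := by exact_mod_cast hj0
    have b1 : (j0 : ℝ) ≤ j₁ := by exact_mod_cast a1
    have b1p : (0 : ℝ) < j₁ := by linarith
    have b0p : (0 : ℝ) < j0 := by linarith
    have bi : (1 : ℝ) ≤ i := by exact_mod_cast hi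
    have bip : (0 : ℝ) < i := by linarith
    have bj : (j₁ : ℝ) ≤ j := by exact_mod_cast a2
    have bjp : (0 : ℝ) < j := by linarith
    set x : ℝ := 1 / (j0 : ℝ) with hx
    have hx0 : 0 < x := by positivity
    have hx1 : x ≤ 1 / 8 := one_div_le_one_div_of_le (by norm_num) b0
    have hx2 : 1 / (j₁ : ℝ) ≤ x := one_div_le_one_div_of_le b0p b1
    have c1 : (j : ℝ) / j₁ ≤ ((i : ℝ) + 1) / i * (1 + x) := by
      have c2 : (j : ℝ) / j₁ ≤ ((i : ℝ) + 1) / i * (1 + 1 / (j₁ : ℝ)) := by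
        have e1 : ((i : ℝ) + 1) / i * (1 + 1 / (j₁ : ℝ)) = (((i : ℝ) + 1) * ((j₁ : ℝ) + 1)) / (i * j₁) := by
          field_simp
        rw [e1, div_le_div_iff₀ b1p (by positivity)]
        nlinarith [mul_le_mul_of_nonneg_right a5' b1p.le]
      have c3 : ((i : ℝ) + 1) / i * (1 + 1 / (j₁ : ℝ)) ≤ ((i : ℝ) + 1) / i * (1 + x) := by
        apply mul_le_mul_of_nonneg_left _ (by positivity)
        linarith
      linarith
    have c4 : (1 + x) ≤ Real.exp x := by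
      have := Real.add_one_le_exp x
      linarith
    have c5 : (j : ℝ) / j₁ ≤ ((i : ℝ) + 1) / i * Real.exp x :=
      c1.trans (mul_le_mul_of_nonneg_left c4 (by positivity))
    have c6 : ((j : ℝ) / j₁) ^ κ ≤ (((i : ℝ) + 1) / i) ^ κ * Real.exp (2 * x) := by
      calc ((j : ℝ) / j₁) ^ κ ≤ (((i : ℝ) + 1) / i * Real.exp x) ^ κ :=
            pow_le_pow_left₀ (by positivity) c5 κ
        _ = (((i : ℝ) + 1) / i) ^ κ * Real.exp (κ * x) := by
            rw [mul_pow, ← Real.exp_nat_mul]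
        _ ≤ (((i : ℝ) + 1) / i) ^ κ * Real.exp (2 * x) := by
            apply mul_le_mul_of_nonneg_left _ (by positivity)
            apply Real.exp_le_exp.2
            have hκ' : (κ : ℝ) ≤ 2 := by exact_mod_cast hκ
            exact mul_le_mul_of_nonneg_right hκ' hx0.le
    have c7 : Real.exp (8 * (1 / (j₁ : ℝ) - 1 / (j : ℝ))) ≤ Real.exp (8 * x) := by
      apply Real.exp_le_exp.2
      have : 0 < 1 / (j : ℝ) := by positivity
      linarith
    have c8 : (((i : ℝ) + 1) / i) ^ κ ≤ 4 := by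
      have d1 : ((i : ℝ) + 1) / i ≤ 2 := by
        rw [div_le_iff₀ bip]
        linarith
      calc (((i : ℝ) + 1) / i) ^ κ ≤ (2 : ℝ) ^ κ := pow_le_pow_left₀ (by positivity) d1 κ
        _ ≤ 2 ^ 2 := pow_le_pow_right₀ (by norm_num) hκ
        _ = 4 := by norm_num
    have c9 : 0 ≤ (((i : ℝ) + 1) / i) ^ κ := by positivity
    calc ∏ j' ∈ Ico j₁ j, 1 / (1 - (κ : ℝ) * gm j')
        ≤ ((j : ℝ) / j₁) ^ κ * Real.exp (8 * (1 / (j₁ : ℝ) - 1 / (j : ℝ))) :=
          prod_le κ j₁ j hκ (hj0.trans a1) a2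
      _ ≤ ((((i : ℝ) + 1) / i) ^ κ * Real.exp (2 * x)) * Real.exp (8 * x) :=
          mul_le_mul c6 c7 (Real.exp_pos _).le (by positivity)
      _ = (((i : ℝ) + 1) / i) ^ κ * Real.exp (10 * x) := by
          rw [mul_assoc, ← Real.exp_add]
          congr 2
          ring
      _ ≤ (((i : ℝ) + 1) / i) ^ κ * (1 + 40 * x) :=
          mul_le_mul_of_nonneg_left (exp_bd x hx0.le hx1) c9
      _ = (((i : ℝ) + 1) / i) ^ κ + (((i : ℝ) + 1) / i) ^ κ * (40 * x) := by ring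
      _ ≤ (((i : ℝ) + 1) / i) ^ κ + 4 * (40 * x) := by
          have := mul_le_mul_of_nonneg_right c8 (show 0 ≤ 40 * x by positivity)
          linarith
      _ = (((i : ℝ) + 1) / i) ^ κ + 160 / j0 := by
          rw [hx]
          ring

end Pool.Agent.Helper58.KS
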